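import Pool.Agent.TH899.UG.GD4

/-! # Goldbach numbers in short intervals or differences of primes

The dichotomy `Pool.Agent.TH899.UG.GD.gd` (helper899) is brought into the form of a statement about
the number of the representations of `2 n` as a sum of two different primes. -/

set_option autoImplicit false

namespace Pool.Agent.X29.GOD

open Finset Filter
open Pool.Agent.TH899.UG.GD

/-- the number of the pairs of primes `p > n > q` with `p + q = 2 n` -/
noncomputable def g (n : ℕ) : ℕ :=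
  {x : ℕ × ℕ | x.1.Prime ∧ x.2.Prime ∧ x.1 + x.2 = 2 * n ∧ n < x.1 ∧ x.2 < n}.ncard

/-- the number of the primes `p ≤ x` with `p + h` prime -/
noncomputable def d (x h : ℕ) : ℕ := {p : ℕ | p ≤ x ∧ p.Prime ∧ (p + h).Prime}.ncard

lemma difc_le (N M h : ℕ) (hNM : 3 * N ≤ M) : difc N h ≤ d M h := by
  classical
  unfold difc d
  rw [← Set.ncard_coe_finset]
  refine Set.ncard_le_ncard ?_ ((Set.finite_Iic M).subset fun p hp => hp.1)
  intro p hp
  rw [mem_coe, mem_filter, mem_Icc] at hp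
  exact ⟨hp.1.2.trans hNM, hp.2.1, hp.2.2⟩

lemma golc_one_le (N M h : ℕ) (hNM : 3 * N ≤ M) : golc N 1 (h : ℤ) ≤ d M h := by
  classical
  unfold golc d
  rw [← Set.ncard_coe_finset]
  refine Set.ncard_le_ncard ?_ ((Set.finite_Iic M).subset fun p hp => hp.1)
  intro p hp
  rw [mem_coe, mem_filter, mem_Icc] at hp
  have e : (1 * (p : ℤ) + (h : ℤ)).toNat = p + h := by omega
  rw [e] at hp
  exact ⟨hp.1.2.trans hNM, hp.2.1, hp.2.2⟩

lemma g_fin (n : ℕ) :
    {x : ℕ × ℕ | x.1.Prime ∧ x.2.Prime ∧ x.1 + x.2 = 2 * n ∧ n < x.1 ∧ x.2 < n}.Finite := by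
  refine ((Set.finite_Iic (2 * n)).prod (Set.finite_Iic (2 * n))).subset ?_
  rintro ⟨a, b⟩ ⟨-, -, h, -, -⟩
  simp only [Set.mem_prod, Set.mem_Iic]
  simp only at h
  omega

lemma golc_neg_le (N n : ℕ) : golc N (-1) ((2 * n : ℕ) : ℤ) ≤ 2 * g n + 1 := by
  classical
  unfold golc
  obtain ⟨F, hF⟩ : ∃ F, F = (Icc 1 (3 * N)).filter (fun p : ℕ => p.Prime ∧
    ((-1 : ℤ) * p + ((2 * n : ℕ) : ℤ)).toNat.Prime) := ⟨_, rfl⟩
  rw [← hF]
  have hm : ∀ p ∈ F, p.Prime ∧ (2 * n - p).Prime ∧ p < 2 * n := by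
    intro p hp
    rw [hF, mem_filter] at hp
    have e : ((-1 : ℤ) * p + ((2 * n : ℕ) : ℤ)).toNat = 2 * n - p := by omega
    rw [e] at hp
    have := hp.2.2.two_le
    exact ⟨hp.2.1, hp.2.2, by omega⟩
  have h1 : F ⊆ (F.filter (fun p => n < p) ∪ F.filter (fun p => p < n)) ∪ {n} := by
    intro p hp
    rw [mem_union, mem_union, mem_filter, mem_filter, mem_singleton]
    rcases lt_trichotomy n p with h | h | h
    · exact Or.inl (Or.inl ⟨hp, h⟩)
    · exact Or.inr h.symm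
    · exact Or.inl (Or.inr ⟨hp, h⟩)
  have h2 : (F.filter (fun p => n < p)).card ≤ g n := by
    unfold g
    rw [← Set.ncard_coe_finset]
    refine Set.ncard_le_ncard_of_injOn (fun p => (p, 2 * n - p)) ?_ ?_ (g_fin n)
    · intro p hp
      rw [mem_coe, mem_filter] at hp
      obtain ⟨a1, a2, a3⟩ := hm p hp.1
      refine ⟨a1, a2, ?_, hp.2, ?_⟩
      · show p + (2 * n - p) = 2 * n
        omega
      · show 2 * n - p < n
        have := hp.2
        omega
    · intro p _ q _ h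
      exact (Prod.mk.inj h).1
  have h3 : (F.filter (fun p => p < n)).card ≤ g n := by
    unfold g
    rw [← Set.ncard_coe_finset]
    refine Set.ncard_le_ncard_of_injOn (fun p => (2 * n - p, p)) ?_ ?_ (g_fin n)
    · intro p hp
      rw [mem_coe, mem_filter] at hp
      obtain ⟨a1, a2, a3⟩ := hm p hp.1
      refine ⟨a2, a1, ?_, ?_, hp.2⟩
      · show (2 * n - p) + p = 2 * n
        omega
      · show n < 2 * n - p
        have := hp.2
        omega
    · intro p _ q _ h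
      exact (Prod.mk.inj h).2
  have h4 := card_le_card h1
  have h5 := card_union_le (F.filter (fun p => n < p) ∪ F.filter (fun p => p < n)) {n}
  have h6 := card_union_le (F.filter (fun p => n < p)) (F.filter (fun p => p < n))
  rw [card_singleton] at h5
  omega

lemma golc_odd (N : ℕ) (a : ℤ) (ha : a = 1 ∨ a = -1) (n : ℕ) : golc N a ((2 * n + 1 : ℕ) : ℤ) ≤ 2 := by
  classical
  unfold golc
  have h1 : (Icc 1 (3 * N)).filter (fun p : ℕ => p.Prime ∧ (a * p + ((2 * n + 1 : ℕ) : ℤ)).toNat.Prime) ⊆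
      {2, (a * (2 - ((2 * n + 1 : ℕ) : ℤ))).toNat} := by
    intro p hp
    rw [mem_filter] at hp
    obtain ⟨-, hp1, hp2⟩ := hp
    rw [mem_insert, mem_singleton]
    rcases hp1.eq_two_or_odd with h | h
    · exact Or.inl h
    · right
      have h3 : (a * p + ((2 * n + 1 : ℕ) : ℤ)).toNat = 2 := by
        rcases hp2.eq_two_or_odd with h4 | h4
        · exact h4
        · exfalso
          have h5 := hp2.two_le
          rcases ha with rfl | rfl
          · omega
          · omega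
      rcases ha with rfl | rfl
      · omega
      · omega
  refine (card_le_card h1).trans ?_
  exact card_le_two

/-- from an interval of length `2 H` to its even members -/
lemma even_count (b H : ℕ) (P : ℕ → Prop) [DecidablePred P] (hodd : ∀ n, ¬ P (2 * n + 1)) :
    ((Ico (2 * b) (2 * b + 2 * H)).filter P).card ≤ ((Ico b (b + H)).filter (fun n => P (2 * n))).card := by
  classical
  have h1 : (Ico (2 * b) (2 * b + 2 * H)).filter P ⊆
      ((Ico b (b + H)).filter (fun n => P (2 * n))).image (fun n => 2 * n) := by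
    intro c hc
    rw [mem_filter, mem_Ico] at hc
    obtain ⟨⟨h1, h2⟩, h3⟩ := hc
    rw [mem_image]
    rcases Nat.even_or_odd' c with ⟨k, hk | hk⟩
    · refine ⟨k, ?_, hk.symm⟩
      rw [mem_filter, mem_Ico]
      rw [hk] at h3
      exact ⟨⟨by omega, by omega⟩, h3⟩
    · rw [hk] at h3
      exact absurd h3 (hodd k)
  exact (card_le_card h1).trans card_image_le

open Classical in
theorem main (ε : ℝ) (hε : 0 < ε) : ∃ K C : ℕ, 1 ≤ K ∧ ∀ η : ℝ, 0 < η → ∀ᶠ N : ℕ in atTop,
    ∀ u L : ℕ, 1 ≤ L → C * (u + L) ≤ N →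
    ((((Ioc u (u + L)).filter (fun k => (d (12 * N) (2 * k) : ℝ) < (N : ℝ) ^ (1 - η))).card : ℝ) ≤
      8 * K * (L : ℝ) ^ (1 - 1 / (K : ℝ))) ∨
    (∀ b H : ℕ, C * (u + L) ≤ H → C * H ≤ N → b ≤ 2 * N →
      (N ≤ b → (1 / 6 - ε) * H ≤ (((Ico b (b + H)).filter (fun n =>
        (N : ℝ) ^ (1 - η) ≤ g n)).card : ℝ)) ∧
      (C * (u + L) ≤ b → (1 / 6 - ε) * H ≤ (((Ico b (b + H)).filter (fun n =>
        (N : ℝ) ^ (1 - η) ≤ d (12 * N) (2 * n))).card : ℝ))) := by
  obtain ⟨K, C, hK, hgd⟩ := gd (ε / 2) (by linarith)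
  refine ⟨K, 2 * C, hK, fun η hη => ?_⟩
  obtain ⟨η', hη'⟩ : ∃ η' : ℝ, η' = min (η / 2) (1 / 2) := ⟨_, rfl⟩
  have hη'0 : 0 < η' := by rw [hη']; exact lt_min (by linarith) (by norm_num)
  have hη'1 : η' ≤ 1 / 2 := by rw [hη']; exact min_le_right _ _
  have hη'2 : η' ≤ η / 2 := by rw [hη']; exact min_le_left _ _
  have ht : Tendsto (fun N : ℕ => 15 * N / 4) atTop atTop := by
    refine tendsto_atTop_mono (fun N => ?_) tendsto_id
    show N ≤ 15 * N / 4
    omega
  have hp1 := ((tendsto_rpow_atTop (show (0 : ℝ) < η - η' by linarith)).comp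
    (tendsto_natCast_atTop_atTop (R := ℝ))).eventually_ge_atTop 4
  have hp2 := ((tendsto_rpow_atTop (show (0 : ℝ) < 1 - η' by linarith)).comp
    (tendsto_natCast_atTop_atTop (R := ℝ))).eventually_ge_atTop 4
  filter_upwards [ht.eventually (hgd η' hη'0), hp1, hp2, eventually_ge_atTop 4] with N hN g1 g2 g3
  simp only [Function.comp] at g1 g2
  intro u L hL hCN
  obtain ⟨N', hN'⟩ : ∃ N', N' = 15 * N / 4 := ⟨_, rfl⟩
  rw [← hN'] at hN
  have hNN' : N ≤ N' := by omega
  have h4N' : 4 * N' ≤ 15 * N := by omega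
  have h4N'' : 15 * N ≤ 4 * N' + 3 := by omega
  have hCC : 2 * C * (u + L) = 2 * (C * (u + L)) := by ring
  rw [hCC] at hCN ⊢
  have hNr : (4 : ℝ) ≤ N := by exact_mod_cast g3
  have hN0 : (0 : ℝ) < N := by linarith
  have hNN'r : (N : ℝ) ≤ N' := by exact_mod_cast hNN'
  have hpow : (N : ℝ) ^ (1 - η') ≤ (N' : ℝ) ^ (1 - η') :=
    Real.rpow_le_rpow hN0.le hNN'r (by linarith)
  have hpow3 : 4 * (N : ℝ) ^ (1 - η) ≤ (N : ℝ) ^ (1 - η') := by
    have h1 : (N : ℝ) ^ (1 - η') = (N : ℝ) ^ (η - η') * (N : ℝ) ^ (1 - η) := by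
      rw [← Real.rpow_add hN0]
      congr 1
      ring
    rw [h1]
    exact mul_le_mul_of_nonneg_right g1 (by positivity)
  have hp0 : 0 ≤ (N : ℝ) ^ (1 - η) := by positivity
  have hpow2 : (N : ℝ) ^ (1 - η) ≤ (N' : ℝ) ^ (1 - η') := by linarith
  rcases hN u L hL (by omega) with h | h
  · left
    refine le_trans ?_ h
    rw [Nat.cast_le]
    refine card_le_card fun k hk => ?_
    rw [mem_filter] at hk ⊢
    refine ⟨hk.1, ?_⟩
    have h1 : (difc N' (2 * k) : ℝ) ≤ d (12 * N) (2 * k) := by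
      exact_mod_cast difc_le N' (12 * N) (2 * k) (by omega)
    linarith [hk.2]
  · right
    intro b H hH1 hH2 hb
    have hodd : ∀ a : ℤ, (a = 1 ∨ a = -1) → ∀ n : ℕ,
        ¬ ((N' : ℝ) ^ (1 - η') ≤ golc N' a ((2 * n + 1 : ℕ) : ℤ)) := by
      intro a ha n hn
      have h1 : (golc N' a ((2 * n + 1 : ℕ) : ℤ) : ℝ) ≤ 2 := by exact_mod_cast golc_odd N' a ha n
      linarith
    have hN'r : (4 : ℝ) * N' ≤ 15 * N := by exact_mod_cast h4N'
    have hmain : ∀ a : ℤ, (a = 1 ∨ a = -1) → C * (u + L) ≤ 2 * b →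
        (∀ y : ℝ, (N' : ℝ) / 16 ≤ y → y ≤ N' / 2 → (N' : ℝ) / 30 ≤ a * y + ((2 * b : ℕ) : ℝ)) →
        (1 / 6 - ε) * H ≤ (((Ico b (b + H)).filter (fun n : ℕ =>
          (N' : ℝ) ^ (1 - η') ≤ golc N' a ((2 * n : ℕ) : ℤ))).card : ℝ) := by
      intro a ha hb2 hy
      have h1 := h a ha (2 * b) (2 * H) hb2 (by omega) hy (by omega) (by
        have : C * (2 * H) = 2 * C * H := by ring
        omega)
      have h2 := even_count b H (fun c : ℕ => (N' : ℝ) ^ (1 - η') ≤ golc N' a (c : ℤ)) (hodd a ha)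
      have h3 : ((((Ico (2 * b) (2 * b + 2 * H)).filter (fun c : ℕ =>
          (N' : ℝ) ^ (1 - η') ≤ golc N' a (c : ℤ))).card : ℕ) : ℝ) ≤
          (((Ico b (b + H)).filter (fun n : ℕ =>
          (N' : ℝ) ^ (1 - η') ≤ golc N' a ((2 * n : ℕ) : ℤ))).card : ℝ) := by exact_mod_cast h2
      refine le_trans (le_of_eq ?_) (h1.trans h3)
      push_cast
      ring
    constructor
    · intro hNb
      have hbr : (N : ℝ) ≤ b := by exact_mod_cast hNb
      refine (hmain (-1) (Or.inr rfl) (by omega) ?_).trans ?_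
      · intro y _ hy2
        push_cast
        linarith
      · rw [Nat.cast_le]
        refine card_le_card fun n hn => ?_
        rw [mem_filter] at hn ⊢
        refine ⟨hn.1, ?_⟩
        have h1 : (golc N' (-1) ((2 * n : ℕ) : ℤ) : ℝ) ≤ 2 * g n + 1 := by
          exact_mod_cast golc_neg_le N' n
        have h2 := hn.2
        linarith
    · intro hCb
      refine (hmain 1 (Or.inl rfl) (by omega) ?_).trans ?_
      · intro y hy1 _
        push_cast
        have : (0 : ℝ) ≤ b := Nat.cast_nonneg _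
        have : (0 : ℝ) ≤ N' := Nat.cast_nonneg _
        linarith
      · rw [Nat.cast_le]
        refine card_le_card fun n hn => ?_
        rw [mem_filter] at hn ⊢
        refine ⟨hn.1, ?_⟩
        have h1 : (golc N' 1 ((2 * n : ℕ) : ℤ) : ℝ) ≤ d (12 * N) (2 * n) := by
          exact_mod_cast golc_one_le N' (12 * N) (2 * n) (by omega)
        exact hpow2.trans (hn.2.trans h1)

end Pool.Agent.X29.GOD
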